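import Pool.Agent.H78R3.Nad.Main

/-!
# Average `N`-adic complexity of finite sequences
-/

namespace Pool.Agent.Results.MP_68df70_lc.FiniteAverage

open Pool.Agent.H78R3.Nad

/-- For every `N ≥ 2` and every `n`, the average `N`-adic complexity of the finite sequences of
length `n` lies between `n/2 - log_N (9/2)` and
`n/2 + log_N (9/2) + log_N (1/2 + 4^ω(N))`, where `ω(N)` is the number of primes dividing `N`;
hence it differs from `n/2` by at most `4 ω(N) / ln N`, and it is `n/2 + o(1)` as `N → ∞`,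
uniformly in `n`. -/
theorem result :
    (∀ N : ℕ, 2 ≤ N → ∀ n : ℕ,
      (n : ℝ) / 2 - Real.logb N (9 / 2) ≤ Efin N n ∧
      Efin N n ≤ (n : ℝ) / 2 + Real.logb N (9 / 2) +
        Real.logb N (1 / 2 + 4 ^ N.primeFactors.card) ∧
      |Efin N n - (n : ℝ) / 2| ≤ 4 * (N.primeFactors.card : ℝ) / Real.log N) ∧
    ∀ ε : ℝ, 0 < ε → ∃ N₀ : ℕ, ∀ N : ℕ, N₀ ≤ N → ∀ n : ℕ, |Efin N n - (n : ℝ) / 2| ≤ ε :=
  ⟨fun _ hN n => ⟨(average hN n).1, (average hN n).2, average_abs hN n⟩,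
    fun ε hε => average_uniform ε hε⟩

end Pool.Agent.Results.MP_68df70_lc.FiniteAverage
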